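import Mathlib
import Pool.Agent.X52.LPBack

/-!
# Lattice path matroids are characterised by a sentence of monadic second-order logic

We show that there is a sentence `φ` of the monadic second-order logic `MS₀` of matroids such that
a finite matroid satisfies `φ` if and only if it is a lattice path matroid.
-/

namespace Pool.Agent.Results.MP_b5ca43_co.MonadicSentence

open Set
open scoped Matroid

universe u

/-! ### Lattice path matroids -/

/-- A step of a lattice path: East `(1,0)` or North `(0,1)`. -/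
inductive Step : Type
  | east
  | north

/-- The height of the path `R` after `i` steps: the number of North steps among the first `i`. -/
noncomputable def height {k : ℕ} (R : Fin k → Step) (i : ℕ) : ℕ :=
  {j : Fin k | (j : ℕ) < i ∧ R j = Step.north}.ncard

/-- `R` is a lattice path from `(0,0)` to `(m,r)`: it has `m + r` steps, `r` of them North. -/
def IsPath (m r : ℕ) (R : Fin (m + r) → Step) : Prop := height R (m + r) = r

/-- `P` never goes above `Q`: after each number of steps, `P` is not higher than `Q`. -/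
def Below {k : ℕ} (P Q : Fin k → Step) : Prop := ∀ i ≤ k, height P i ≤ height Q i

/-- `M` is isomorphic to a matroid `M[P,Q]`: its elements are numbered by the steps, and its bases
are the sets of North steps of the lattice paths `R` from `(0,0)` to `(m,r)` in the region between
`P` and `Q`. -/
def IsLatticePathMatroid {α : Type u} (M : Matroid α) : Prop :=
  ∃ (m r : ℕ) (P Q : Fin (m + r) → Step) (e : Fin (m + r) ≃ M.E),
    IsPath m r P ∧ IsPath m r Q ∧ Below P Q ∧
    ∀ B ⊆ M.E, M.IsBase B ↔ ∃ R : Fin (m + r) → Step,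
      IsPath m r R ∧ Below P R ∧ Below R Q ∧ B = {x | ∃ j, R j = Step.north ∧ (e j : α) = x}

/-! ### The logic `MS₀` -/

/-- Formulas of `MS₀` whose free variables are among `X_0, …, X_{n-1}`. In `ex φ` and `all φ` the
quantified variable is the variable `X_0` of `φ`, and the variable `X_i` of `ex φ` and `all φ` is
the variable `X_{i+1}` of `φ`. -/
inductive Formula : ℕ → Type
  | ind {n : ℕ} (i : Fin n) : Formula n
  | sub {n : ℕ} (i j : Fin n) : Formula n
  | not {n : ℕ} (φ : Formula n) : Formula n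
  | and {n : ℕ} (φ ψ : Formula n) : Formula n
  | or {n : ℕ} (φ ψ : Formula n) : Formula n
  | imp {n : ℕ} (φ ψ : Formula n) : Formula n
  | ex {n : ℕ} (φ : Formula (n + 1)) : Formula n
  | all {n : ℕ} (φ : Formula (n + 1)) : Formula n

/-- Satisfaction of a formula in the matroid `M`, the variables being interpreted by `v`. -/
def Sat {α : Type u} (M : Matroid α) : {n : ℕ} → Formula n → (Fin n → Set α) → Prop
  | _, .ind i, v => M.Indep (v i)
  | _, .sub i j, v => v i ⊆ v j
  | _, .not φ, v => ¬ Sat M φ v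
  | _, .and φ ψ, v => Sat M φ v ∧ Sat M ψ v
  | _, .or φ ψ, v => Sat M φ v ∨ Sat M ψ v
  | _, .imp φ ψ, v => Sat M φ v → Sat M ψ v
  | _, .ex φ, v => ∃ X : Set α, X ⊆ M.E ∧ Sat M φ (Fin.cons (α := fun _ => Set α) X v)
  | _, .all φ, v => ∀ X : Set α, X ⊆ M.E → Sat M φ (Fin.cons (α := fun _ => Set α) X v)

/-- A sentence is a formula with no free variables. -/
abbrev Sentence : Type := Formula 0

/-- `M ⊨ φ`. -/
def Models {α : Type u} (M : Matroid α) (φ : Sentence) : Prop :=
  Sat M φ (fun i => Fin.elim0 i)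

/-! ### The sentence -/

open Pool.Agent.X52.LP Pool.Agent.X52.K4Ops

section formulas

variable {α : Type u} {M : Matroid α} {n : ℕ} {w : Fin n → Set α}

/-- `X_i = ∅` -/
def fEmpty (i : Fin n) : Formula n := .all (.sub i.succ 0)

lemma sat_fEmpty {i : Fin n} {X : Set α} (h1 : w i = X) :
    Sat M (fEmpty i) w ↔ X = ∅ := by
  subst h1
  constructor
  · intro h
    exact Set.subset_empty_iff.1 (h ∅ (Set.empty_subset _))
  · intro h X _
    show w i ⊆ X
    rw [h]; exact Set.empty_subset _

/-- `X_i` is a circuit -/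
def fCirc (i : Fin n) : Formula n :=
  .and (.not (.ind i)) (.all (.imp (.sub 0 i.succ) (.or (.sub i.succ 0) (.ind 0))))

lemma sat_fCirc {i : Fin n} {C : Set α} (hi : C ⊆ M.E) (h1 : w i = C) :
    Sat M (fCirc i) w ↔ M.IsCircuit C := by
  subst h1
  rw [Matroid.isCircuit_iff_forall_ssubset]
  constructor
  · rintro ⟨h1, h2⟩
    refine ⟨⟨h1, hi⟩, fun I hI => ?_⟩
    rcases h2 I (hI.1.trans hi) hI.1 with h3 | h3
    · exact absurd h3 hI.2
    · exact h3
  · rintro ⟨h1, h2⟩
    refine ⟨h1.1, fun X _ hX => ?_⟩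
    by_cases h3 : w i ⊆ X
    · exact Or.inl h3
    · exact Or.inr (h2 ⟨hX, h3⟩)

/-- `X_i` is a basis of `X_j` -/
def fBasis (i j : Fin n) : Formula n :=
  .and (.sub i j) (.and (.ind i) (.all (.imp (.sub i.succ 0) (.imp (.sub 0 j.succ)
    (.imp (.ind 0) (.sub 0 i.succ))))))

lemma sat_fBasis {i j : Fin n} {I X : Set α} (hj : X ⊆ M.E) (h1 : w i = I)
    (h2 : w j = X) : Sat M (fBasis i j) w ↔ M.IsBasis I X := by
  subst h1 h2
  constructor
  · rintro ⟨h1, h2, h3⟩
    refine ⟨⟨⟨h2, h1⟩, ?_⟩, hj⟩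
    rintro J ⟨h4, h5⟩ h6
    exact h3 J h4.subset_ground h6 h5 h4
  · intro h
    refine ⟨h.subset, h.indep, fun J _ h1 h2 h3 => ?_⟩
    exact (h.eq_of_subset_indep h3 h1 h2).ge

/-- `X_a` is in the family for `X_b`, `X_k` -/
def fFam (b a k : Fin n) : Formula n :=
  .and (.sub a k) (.and
    (.all (.imp (.sub a.succ 0) (.imp (.sub 0 k.succ)
      (.imp (.ex (.and (fBasis 0 a.succ.succ) (fBasis 0 (Fin.succ 0)))) (.sub 0 a.succ)))))
    (.and
      (.all (.imp (.all (.imp (fCirc 0) (.imp (.sub 0 a.succ.succ) (.sub 0 (Fin.succ 0)))))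
        (.sub a.succ 0)))
      (.ex (.and (.sub 0 b.succ) (fBasis 0 a.succ)))))

lemma sat_fFam {b a k : Fin n} {B A K : Set α} (ha : A ⊆ M.E) (h1 : w b = B)
    (h2 : w a = A) (h3 : w k = K) :
    Sat M (fFam b a k) w ↔ Fam M B A K := by
  subst h1 h2 h3
  constructor
  · rintro ⟨h1, h2, h3, h4⟩
    refine ⟨h1, ?_, ?_, ?_⟩
    · rintro X hX hAX hXK ⟨I, hI, hIA, hIX⟩
      exact h2 X hX hAX hXK ⟨I, hI, (sat_fBasis ha (by rfl) (by rfl)).2 hIA, (sat_fBasis hX (by rfl) (by rfl)).2 hIX⟩
    · intro X hX h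
      exact h3 X hX fun C hC hC1 hC2 => h C hC ((sat_fCirc hC (by rfl)).1 hC1) hC2
    · obtain ⟨I, hI, hIB, hIA⟩ := h4
      exact ⟨I, hI, hIB, (sat_fBasis ha (by rfl) (by rfl)).1 hIA⟩
  · intro h
    refine ⟨h.sub, ?_, ?_, ?_⟩
    · rintro X hX hAX hXK ⟨I, hI, hIA, hIX⟩
      exact h.closed X hX hAX hXK ⟨I, hI, (sat_fBasis ha (by rfl) (by rfl)).1 hIA, (sat_fBasis hX (by rfl) (by rfl)).1 hIX⟩
    · intro X hX h'
      exact h.cyc X hX fun C hC hC1 hC2 => h' C hC ((sat_fCirc hC (by rfl)).2 hC1) hC2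
    · obtain ⟨I, hI, hIB, hIA⟩ := h.span
      exact ⟨I, hI, hIB, (sat_fBasis ha (by rfl) (by rfl)).2 hIA⟩

/-- `X_i ∩ X_j = ∅` -/
def fDisj (i j : Fin n) : Formula n :=
  .all (.imp (.sub 0 i.succ) (.imp (.sub 0 j.succ) (fEmpty 0)))

lemma sat_fDisj {i j : Fin n} {X Y : Set α} (hi : X ⊆ M.E) (h1 : w i = X)
    (h2 : w j = Y) : Sat M (fDisj i j) w ↔ Disjoint X Y := by
  subst h1 h2
  constructor
  · intro h
    rw [Set.disjoint_iff_inter_eq_empty]
    exact (sat_fEmpty (by rfl)).1
      (h (w i ∩ w j) (Set.inter_subset_left.trans hi) Set.inter_subset_left Set.inter_subset_right)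
  · intro h X hX h1 h2
    refine (sat_fEmpty (X := X) (by rfl)).2 ?_
    rw [← Set.subset_empty_iff, ← Set.disjoint_iff_inter_eq_empty.1 h]
    exact Set.subset_inter h1 h2

/-- `X_i` is a separator -/
def fSep (i : Fin n) : Formula n :=
  .all (.imp (fCirc 0) (.or (.sub 0 i.succ) (fDisj 0 i.succ)))

lemma sat_fSep {i : Fin n} {S : Set α} (h1 : w i = S) :
    Sat M (fSep i) w ↔ Sep M S := by
  subst h1
  constructor
  · intro h C hC
    rcases h C hC.subset_ground ((sat_fCirc hC.subset_ground (by rfl)).2 hC) with h1 | h1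
    · exact Or.inl h1
    · exact Or.inr ((sat_fDisj hC.subset_ground (by rfl) (by rfl)).1 h1)
  · intro h C hCE hC
    rcases h C ((sat_fCirc hCE (by rfl)).1 hC) with h1 | h1
    · exact Or.inl h1
    · exact Or.inr ((sat_fDisj hCE (by rfl) (by rfl)).2 h1)

/-- `X_i` is a component -/
def fComp (i : Fin n) : Formula n :=
  .and (.not (fEmpty i)) (.and (fSep i)
    (.all (.imp (fSep 0) (.imp (.not (fEmpty 0)) (.imp (.sub 0 i.succ) (.sub i.succ 0))))))

lemma sat_fComp {i : Fin n} {K : Set α} (hi : K ⊆ M.E) (h1 : w i = K) :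
    Sat M (fComp i) w ↔ Comp M K := by
  subst h1
  constructor
  · rintro ⟨h1, h2, h3⟩
    refine ⟨hi, ?_, (sat_fSep (by rfl)).1 h2, fun S hS h4 h5 h6 => ?_⟩
    · rw [Set.nonempty_iff_ne_empty]
      intro h; exact h1 ((sat_fEmpty (by rfl)).2 h)
    · exact h3 S hS ((sat_fSep (by rfl)).2 h4) (fun h => h5.ne_empty ((sat_fEmpty (by rfl)).1 h)) h6
  · rintro ⟨_, h1, h2, h3⟩
    refine ⟨fun h => h1.ne_empty ((sat_fEmpty (by rfl)).1 h), (sat_fSep (by rfl)).2 h2, fun S hS h4 h5 h6 => ?_⟩
    refine h3 S hS ((sat_fSep (by rfl)).1 h4) ?_ h6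
    rw [Set.nonempty_iff_ne_empty]
    intro h
    exact h5 ((sat_fEmpty (by rfl)).2 h)

/-- `Mod` -/
def fMod (a z c k : Fin n) : Formula n :=
  -- `I = 3, J₁ = 2, J₂ = 1, J₃ = 0`
  .ex (.ex (.ex (.ex
    (.and (fBasis (Fin.succ (Fin.succ (Fin.succ 0))) c.succ.succ.succ.succ)
    (.and (fBasis (Fin.succ (Fin.succ 0)) a.succ.succ.succ.succ)
    (.and (fBasis (Fin.succ 0) z.succ.succ.succ.succ)
    (.and (fBasis 0 k.succ.succ.succ.succ)
    (.and (.sub (Fin.succ (Fin.succ (Fin.succ 0))) (Fin.succ (Fin.succ 0)))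
    (.and (.sub (Fin.succ (Fin.succ (Fin.succ 0))) (Fin.succ 0))
    (.and (.all (.imp (.sub 0 (Fin.succ (Fin.succ (Fin.succ 0))))
      (.imp (.sub 0 (Fin.succ (Fin.succ 0))) (.sub 0 (Fin.succ (Fin.succ (Fin.succ (Fin.succ 0))))))))
    (.and (.sub (Fin.succ (Fin.succ 0)) 0)
    (.and (.sub (Fin.succ 0) 0)
    (.all (.imp (.sub (Fin.succ (Fin.succ (Fin.succ 0))) 0)
      (.imp (.sub (Fin.succ (Fin.succ 0)) 0) (.sub (Fin.succ 0) 0))))))))))))))))

lemma sat_fMod {a z c k : Fin n} {A Z C K : Set α} (ha : A ⊆ M.E) (hz : Z ⊆ M.E) (hc : C ⊆ M.E)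
    (hk : K ⊆ M.E) (h1 : w a = A) (h2 : w z = Z) (h3 : w c = C)
    (h4 : w k = K) : Sat M (fMod a z c k) w ↔ Mod M A Z C K := by
  subst h1 h2 h3 h4
  constructor
  · rintro ⟨I, hI, J₁, h1, J₂, h2, J₃, h3, b1, b2, b3, b4, i1, i2, h4, i3, i4, h5⟩
    exact ⟨I, hI, J₁, h1, J₂, h2, J₃, h3, (sat_fBasis hc (by rfl) (by rfl)).1 b1, (sat_fBasis ha (by rfl) (by rfl)).1 b2,
      (sat_fBasis hz (by rfl) (by rfl)).1 b3, (sat_fBasis hk (by rfl) (by rfl)).1 b4, i1, i2, h4, i3, i4, h5⟩
  · rintro ⟨I, hI, J₁, h1, J₂, h2, J₃, h3, b1, b2, b3, b4, i1, i2, h4, i3, i4, h5⟩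
    exact ⟨I, hI, J₁, h1, J₂, h2, J₃, h3, (sat_fBasis hc (by rfl) (by rfl)).2 b1, (sat_fBasis ha (by rfl) (by rfl)).2 b2,
      (sat_fBasis hz (by rfl) (by rfl)).2 b3, (sat_fBasis hk (by rfl) (by rfl)).2 b4, i1, i2, h4, i3, i4, h5⟩

/-- `X_k ⊆ X_i ∪ X_j` -/
def fUnion (i j k : Fin n) : Formula n :=
  .all (.imp (.sub i.succ 0) (.imp (.sub j.succ 0) (.sub k.succ 0)))

lemma sat_fUnion {i j k : Fin n} {X Y Z : Set α} (hi : X ⊆ M.E) (hj : Y ⊆ M.E)
    (h1 : w i = X) (h2 : w j = Y) (h3 : w k = Z) :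
    Sat M (fUnion i j k) w ↔ Z ⊆ X ∪ Y := by
  subst h1 h2 h3
  constructor
  · intro h
    exact h (w i ∪ w j) (Set.union_subset hi hj) Set.subset_union_left Set.subset_union_right
  · intro h X _ h1 h2
    exact h.trans (Set.union_subset h1 h2)

end formulas

/-- the sentence characterising lattice path matroids -/
def sentence : Sentence :=
  .ex (.ex (.all (.imp (fComp 0)
    -- `K = 0, B₂ = 1, B₁ = 2`
    (.and (.all (.all (.imp (fFam (Fin.succ (Fin.succ (Fin.succ (Fin.succ 0)))) (Fin.succ 0)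
        (Fin.succ (Fin.succ 0)))
      (.imp (fFam (Fin.succ (Fin.succ (Fin.succ (Fin.succ 0)))) 0 (Fin.succ (Fin.succ 0)))
        (.or (.sub (Fin.succ 0) 0) (.sub 0 (Fin.succ 0)))))))
    (.and (.all (.all (.imp (fFam (Fin.succ (Fin.succ (Fin.succ 0))) (Fin.succ 0)
        (Fin.succ (Fin.succ 0)))
      (.imp (fFam (Fin.succ (Fin.succ (Fin.succ 0))) 0 (Fin.succ (Fin.succ 0)))
        (.or (.sub (Fin.succ 0) 0) (.sub 0 (Fin.succ 0)))))))
    (.and (.all (.all (.imp (fFam (Fin.succ (Fin.succ (Fin.succ (Fin.succ 0)))) (Fin.succ 0)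
        (Fin.succ (Fin.succ 0)))
      (.imp (fFam (Fin.succ (Fin.succ (Fin.succ 0))) 0 (Fin.succ (Fin.succ 0)))
        (.or (fDisj (Fin.succ 0) 0) (fUnion (Fin.succ 0) 0 (Fin.succ (Fin.succ 0))))))))
    (.all (.imp (fCirc 0) (.imp (.sub 0 (Fin.succ 0))
      -- `Z = 0, A = 1, C = 2, K = 3, B₂ = 4, B₁ = 5`
      (.ex (.ex (.and (fFam (Fin.succ (Fin.succ (Fin.succ (Fin.succ (Fin.succ 0))))) (Fin.succ 0)
          (Fin.succ (Fin.succ (Fin.succ 0))))
        (.and (fFam (Fin.succ (Fin.succ (Fin.succ (Fin.succ 0)))) 0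
          (Fin.succ (Fin.succ (Fin.succ 0))))
        (.and (.sub (Fin.succ (Fin.succ 0)) (Fin.succ 0))
        (.and (.sub (Fin.succ (Fin.succ 0)) 0)
        (fMod (Fin.succ 0) 0 (Fin.succ (Fin.succ 0))
          (Fin.succ (Fin.succ (Fin.succ 0)))))))))))))))))))

theorem models_sentence {α : Type u} (M : Matroid α) : Models M sentence ↔ Phi M := by
  constructor
  · rintro ⟨B₁, hB₁, B₂, hB₂, h⟩
    refine ⟨B₁, hB₁, B₂, hB₂, fun K hK hKc => ?_⟩
    obtain ⟨h1, h2, h3, h4⟩ := h K hK ((sat_fComp hK (by rfl)).2 hKc)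
    refine ⟨?_, ?_, ?_, ?_⟩
    · intro A hA A' hA' f1 f2
      exact h1 A hA A' hA' ((sat_fFam hA (by rfl) (by rfl) (by rfl)).2 f1) ((sat_fFam hA' (by rfl) (by rfl) (by rfl)).2 f2)
    · intro A hA A' hA' f1 f2
      exact h2 A hA A' hA' ((sat_fFam hA (by rfl) (by rfl) (by rfl)).2 f1) ((sat_fFam hA' (by rfl) (by rfl) (by rfl)).2 f2)
    · intro A hA A' hA' f1 f2
      rcases h3 A hA A' hA' ((sat_fFam hA (by rfl) (by rfl) (by rfl)).2 f1) ((sat_fFam hA' (by rfl) (by rfl) (by rfl)).2 f2) with g | g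
      · exact Or.inl ((sat_fDisj hA (by rfl) (by rfl)).1 g)
      · exact Or.inr ((sat_fUnion hA hA' (by rfl) (by rfl) (by rfl)).1 g)
    · intro C hC hCc hCK
      obtain ⟨A, hA, Z, hZ, f1, f2, g1, g2, g3⟩ := h4 C hC ((sat_fCirc hC (by rfl)).2 hCc) hCK
      exact ⟨A, hA, Z, hZ, (sat_fFam hA (by rfl) (by rfl) (by rfl)).1 f1, (sat_fFam hZ (by rfl) (by rfl) (by rfl)).1 f2, g1, g2,
        (sat_fMod hA hZ hC hK (by rfl) (by rfl) (by rfl) (by rfl)).1 g3⟩
  · rintro ⟨B₁, hB₁, B₂, hB₂, h⟩
    refine ⟨B₁, hB₁, B₂, hB₂, fun K hK hKc => ?_⟩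
    obtain ⟨h1, h2, h3, h4⟩ := h K hK ((sat_fComp hK (by rfl)).1 hKc)
    refine ⟨?_, ?_, ?_, ?_⟩
    · intro A hA A' hA' f1 f2
      exact h1 A hA A' hA' ((sat_fFam hA (by rfl) (by rfl) (by rfl)).1 f1) ((sat_fFam hA' (by rfl) (by rfl) (by rfl)).1 f2)
    · intro A hA A' hA' f1 f2
      exact h2 A hA A' hA' ((sat_fFam hA (by rfl) (by rfl) (by rfl)).1 f1) ((sat_fFam hA' (by rfl) (by rfl) (by rfl)).1 f2)
    · intro A hA A' hA' f1 f2
      rcases h3 A hA A' hA' ((sat_fFam hA (by rfl) (by rfl) (by rfl)).1 f1) ((sat_fFam hA' (by rfl) (by rfl) (by rfl)).1 f2) with g | g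
      · exact Or.inl ((sat_fDisj hA (by rfl) (by rfl)).2 g)
      · exact Or.inr ((sat_fUnion hA hA' (by rfl) (by rfl) (by rfl)).2 g)
    · intro C hC hCc hCK
      obtain ⟨A, hA, Z, hZ, f1, f2, g1, g2, g3⟩ := h4 C hC ((sat_fCirc hC (by rfl)).1 hCc) hCK
      exact ⟨A, hA, Z, hZ, (sat_fFam hA (by rfl) (by rfl) (by rfl)).2 f1, (sat_fFam hZ (by rfl) (by rfl) (by rfl)).2 f2, g1, g2,
        (sat_fMod hA hZ hC hK (by rfl) (by rfl) (by rfl) (by rfl)).2 g3⟩

/-! ### Paths and heights -/

lemma height_zero {k : ℕ} (R : Fin k → Step) : height R 0 = 0 := by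
  unfold height
  have : {j : Fin k | (j : ℕ) < 0 ∧ R j = Step.north} = ∅ := by
    ext j; simp
  rw [this, Set.ncard_empty]

lemma height_succ_north {k : ℕ} {R : Fin k → Step} {j : Fin k} (h : R j = Step.north) :
    height R ((j : ℕ) + 1) = height R j + 1 := by
  unfold height
  have : {i : Fin k | (i : ℕ) < (j : ℕ) + 1 ∧ R i = Step.north} =
      insert j {i : Fin k | (i : ℕ) < (j : ℕ) ∧ R i = Step.north} := by
    ext i
    simp only [Set.mem_ofPred_eq, Set.mem_insert_iff]
    constructor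
    · rintro ⟨h1, h2⟩
      by_cases h3 : (i : ℕ) = j
      · exact Or.inl (Fin.ext h3)
      · exact Or.inr ⟨by omega, h2⟩
    · rintro (rfl | ⟨h1, h2⟩)
      · exact ⟨by omega, h⟩
      · exact ⟨by omega, h2⟩
  rw [this, Set.ncard_insert_of_notMem _ (Set.toFinite _)]
  rintro ⟨h1, _⟩
  omega

lemma height_succ_east {k : ℕ} {R : Fin k → Step} {j : Fin k} (h : R j ≠ Step.north) :
    height R ((j : ℕ) + 1) = height R j := by
  unfold height
  have : {i : Fin k | (i : ℕ) < (j : ℕ) + 1 ∧ R i = Step.north} =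
      {i : Fin k | (i : ℕ) < (j : ℕ) ∧ R i = Step.north} := by
    ext i
    simp only [Set.mem_ofPred_eq]
    constructor
    · rintro ⟨h1, h2⟩
      refine ⟨?_, h2⟩
      by_contra h3
      have h4 : i = j := Fin.ext (by omega)
      exact h (h4 ▸ h2)
    · rintro ⟨h1, h2⟩
      exact ⟨by omega, h2⟩
  rw [this]

lemma path_of_fun {k : ℕ} (h : ℕ → ℕ) (h0 : h 0 = 0)
    (hs : ∀ i < k, h i ≤ h (i + 1) ∧ h (i + 1) ≤ h i + 1) :
    ∃ R : Fin k → Step, (∀ i ≤ k, height R i = h i) ∧
      ∀ j : Fin k, R j = Step.north ↔ h ((j : ℕ) + 1) = h j + 1 := by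
  classical
  let R : Fin k → Step := fun j => if h ((j : ℕ) + 1) = h j + 1 then Step.north else Step.east
  have hR : ∀ j : Fin k, R j = Step.north ↔ h ((j : ℕ) + 1) = h j + 1 := by
    intro j
    simp only [R]
    by_cases hj : h ((j : ℕ) + 1) = h j + 1
    · rw [if_pos hj]; exact ⟨fun _ => hj, fun _ => rfl⟩
    · rw [if_neg hj]; exact ⟨fun h' => (by cases h'), fun h' => absurd h' hj⟩
  refine ⟨R, ?_, hR⟩
  intro i
  induction i with
  | zero => intro _; rw [height_zero, h0]
  | succ i ih =>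
    intro hi
    have h1 := ih (by omega)
    have h2 := hs i (by omega)
    by_cases hj : R ⟨i, by omega⟩ = Step.north
    · have h3 := height_succ_north hj
      have h4 := (hR _).1 hj
      simp only at h3 h4
      rw [h3, h1, h4]
    · have h3 := height_succ_east hj
      have h4 : ¬ h (i + 1) = h i + 1 := fun h => hj ((hR ⟨i, by omega⟩).2 h)
      simp only at h3
      rw [h3, h1]
      omega

section numbering

variable {α : Type u} {M : Matroid α} {k : ℕ}

open Classical in
/-- the position of an element -/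
noncomputable def posOf (e : Fin k ≃ M.E) (x : α) : ℤ :=
  if hx : x ∈ M.E then ((e.symm ⟨x, hx⟩ : Fin k) : ℕ) else 0

lemma posOf_e (e : Fin k ≃ M.E) (j : Fin k) : posOf e (e j) = ((j : ℕ) : ℤ) := by
  unfold posOf
  rw [dif_pos (e j).2]
  simp

lemma exists_index (e : Fin k ≃ M.E) {x : α} (hx : x ∈ M.E) : ∃ j : Fin k, (e j : α) = x :=
  ⟨e.symm ⟨x, hx⟩, by simp⟩

/-- the set of North steps of `R` -/
def north (e : Fin k ≃ M.E) (R : Fin k → Step) : Set α := {x | ∃ j, R j = Step.north ∧ (e j : α) = x}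

lemma north_subset (e : Fin k ≃ M.E) (R : Fin k → Step) : north e R ⊆ M.E := by
  rintro x ⟨j, _, rfl⟩; exact (e j).2

lemma e_mem_north (e : Fin k ≃ M.E) (R : Fin k → Step) (j : Fin k) :
    (e j : α) ∈ north e R ↔ R j = Step.north := by
  constructor
  · rintro ⟨i, h1, h2⟩
    have : i = j := e.injective (Subtype.ext h2)
    rw [← this]; exact h1
  · intro h; exact ⟨j, h, rfl⟩

lemma mem_pre (e : Fin k ≃ M.E) (j : Fin k) (i : ℕ) :
    (e j : α) ∈ pre M (posOf e) i ↔ (j : ℕ) < i := by
  constructor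
  · rintro ⟨_, h⟩
    rw [posOf_e] at h
    omega
  · intro h
    refine ⟨(e j).2, ?_⟩
    rw [posOf_e]
    omega

lemma mem_suf (e : Fin k ≃ M.E) (j : Fin k) (i : ℕ) :
    (e j : α) ∈ suf M (posOf e) i ↔ i ≤ (j : ℕ) := by
  constructor
  · rintro ⟨_, h⟩
    rw [posOf_e] at h
    omega
  · intro h
    refine ⟨(e j).2, ?_⟩
    rw [posOf_e]
    omega

lemma ncard_north (e : Fin k ≃ M.E) (R : Fin k → Step) (i : ℕ) :
    (north e R ∩ pre M (posOf e) i).ncard = height R i := by
  have hinj : Function.Injective (fun j : Fin k => (e j : α)) :=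
    fun i j h => e.injective (Subtype.ext h)
  unfold height
  rw [← Set.ncard_image_of_injective _ hinj]
  congr 1
  ext x
  constructor
  · rintro ⟨⟨j, h1, rfl⟩, h2⟩
    exact ⟨j, ⟨(mem_pre e j i).1 h2, h1⟩, rfl⟩
  · rintro ⟨j, ⟨h1, h2⟩, rfl⟩
    exact ⟨⟨j, h2, rfl⟩, (mem_pre e j i).2 h1⟩

lemma exists_north (e : Fin k ≃ M.E) {X : Set α} (hX : X ⊆ M.E) :
    ∃ R : Fin k → Step, X = north e R := by
  classical
  refine ⟨fun j => if (e j : α) ∈ X then Step.north else Step.east, ?_⟩
  ext x
  constructor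
  · intro hx
    obtain ⟨j, rfl⟩ := exists_index e (hX hx)
    refine ⟨j, ?_, rfl⟩
    simp only [if_pos hx]
  · rintro ⟨j, h1, rfl⟩
    by_contra h2
    simp only [if_neg h2] at h1
    cases h1

lemma pre_clamp (e : Fin k ≃ M.E) (t : ℤ) : ∃ i : ℕ, i ≤ k ∧
    pre M (posOf e) t = pre M (posOf e) i ∧ suf M (posOf e) t = suf M (posOf e) i := by
  refine ⟨min t.toNat k, Nat.min_le_right _ _, ?_, ?_⟩
  · ext x
    constructor
    · rintro ⟨hx, h⟩
      obtain ⟨j, rfl⟩ := exists_index e hx
      rw [mem_pre]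
      rw [posOf_e] at h
      have := j.2
      omega
    · intro hx
      obtain ⟨j, rfl⟩ := exists_index e hx.1
      rw [mem_pre] at hx
      refine ⟨(e j).2, ?_⟩
      rw [posOf_e]
      omega
  · ext x
    constructor
    · rintro ⟨hx, h⟩
      obtain ⟨j, rfl⟩ := exists_index e hx
      rw [mem_suf]
      rw [posOf_e] at h
      have := j.2
      omega
    · intro hx
      obtain ⟨j, rfl⟩ := exists_index e hx.1
      rw [mem_suf] at hx
      refine ⟨(e j).2, ?_⟩
      rw [posOf_e]
      have := j.2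
      omega

lemma pre_all (e : Fin k ≃ M.E) : pre M (posOf e) (k : ℕ) = M.E := by
  ext x
  constructor
  · intro h; exact h.1
  · intro h
    obtain ⟨j, rfl⟩ := exists_index e h
    rw [mem_pre]
    exact j.2

lemma suf_all (e : Fin k ≃ M.E) : suf M (posOf e) (k : ℕ) = ∅ := by
  ext x
  constructor
  · intro h
    obtain ⟨j, rfl⟩ := exists_index e h.1
    rw [mem_suf] at h
    have := j.2
    omega
  · intro h; exact absurd h (Set.notMem_empty _)

lemma suf_zero (e : Fin k ≃ M.E) : suf M (posOf e) (0 : ℕ) = M.E := by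
  ext x
  constructor
  · intro h; exact h.1
  · intro h
    obtain ⟨j, rfl⟩ := exists_index e h
    rw [mem_suf]
    omega

lemma pre_zero (e : Fin k ≃ M.E) : pre M (posOf e) (0 : ℕ) = ∅ := by
  ext x
  constructor
  · intro h
    obtain ⟨j, rfl⟩ := exists_index e h.1
    rw [mem_pre] at h
    omega
  · intro h; exact absurd h (Set.notMem_empty _)

lemma pre_succ (e : Fin k ≃ M.E) (j : Fin k) :
    pre M (posOf e) (((j : ℕ) + 1 : ℕ) : ℤ) = insert (e j : α) (pre M (posOf e) ((j : ℕ) : ℤ)) := by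
  ext x
  constructor
  · intro hx
    obtain ⟨i, rfl⟩ := exists_index e hx.1
    rw [mem_pre] at hx
    by_cases hij : i = j
    · left; rw [hij]
    · right
      rw [mem_pre]
      have : (i : ℕ) ≠ j := fun h => hij (Fin.ext h)
      omega
  · rintro (rfl | hx)
    · rw [mem_pre]; omega
    · obtain ⟨i, rfl⟩ := exists_index e hx.1
      rw [mem_pre] at hx ⊢
      omega

lemma suf_succ (e : Fin k ≃ M.E) (j : Fin k) :
    suf M (posOf e) ((j : ℕ) : ℤ) =
      insert (e j : α) (suf M (posOf e) (((j : ℕ) + 1 : ℕ) : ℤ)) := by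
  ext x
  constructor
  · intro hx
    obtain ⟨i, rfl⟩ := exists_index e hx.1
    rw [mem_suf] at hx
    by_cases hij : i = j
    · left; rw [hij]
    · right
      rw [mem_suf]
      have : (i : ℕ) ≠ j := fun h => hij (Fin.ext h)
      omega
  · rintro (rfl | hx)
    · rw [mem_suf]
    · obtain ⟨i, rfl⟩ := exists_index e hx.1
      rw [mem_suf] at hx ⊢
      omega

lemma ncard_split [M.Finite] {X : Set α} (hX : X ⊆ M.E) (pos : α → ℤ) (t : ℤ) :
    (X ∩ pre M pos t).ncard + (X ∩ suf M pos t).ncard = X.ncard := by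
  have hf : X.Finite := M.ground_finite.subset hX
  rw [← Set.ncard_union_eq _ (hf.subset Set.inter_subset_left) (hf.subset Set.inter_subset_left)]
  · congr 1
    ext x
    constructor
    · rintro (h | h)
      · exact h.1
      · exact h.1
    · intro h
      by_cases h1 : pos x < t
      · exact Or.inl ⟨h, hX h, h1⟩
      · exact Or.inr ⟨h, hX h, by omega⟩
  · rw [Set.disjoint_left]
    rintro x ⟨_, h1⟩ ⟨_, h2⟩
    have := h1.2
    have := h2.2
    omega

end numbering

/-! ### From lattice path matroids to ordered matroids -/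

theorem ord_of_lattice {α : Type u} {M : Matroid α} (h : IsLatticePathMatroid M) :
    M.Finite ∧ ∃ (pos : α → ℤ) (B₁ B₂ : Set α), Ord M pos ∧ Greedy M pos B₁ ∧
      Greedy M (fun x => - pos x) B₂ := by
  classical
  obtain ⟨m, r, P, Q, e, hP, hQ, hPQ, hB⟩ := h
  have hfin : M.Finite := by
    have : Finite M.E := Finite.of_equiv _ e
    exact ⟨Set.toFinite _⟩
  refine ⟨hfin, ?_⟩
  set pos := posOf e with hpos
  -- the two extreme bases
  have hB' : ∀ R : Fin (m + r) → Step, IsPath m r R → Below P R → Below R Q →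
      M.IsBase (north e R) := fun R h1 h2 h3 =>
    (hB _ (north_subset e R)).2 ⟨R, h1, h2, h3, rfl⟩
  have bQ := hB' Q hQ hPQ (fun i _ => le_rfl)
  have bP := hB' P hP (fun i _ => le_rfl) hPQ
  have hcard : ∀ R : Fin (m + r) → Step, IsPath m r R → (north e R).ncard = r := by
    intro R hR
    have h1 := ncard_north e R (m + r)
    rw [pre_all e, Set.inter_eq_self_of_subset_left (north_subset e R)] at h1
    rw [h1]; exact hR
  have hbase : ∀ I, M.Indep I → ∃ R : Fin (m + r) → Step, IsPath m r R ∧ Below P R ∧ Below R Q ∧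
      I ⊆ north e R := by
    intro I hI
    obtain ⟨B, hBb, hIB⟩ := hI.exists_isBase_superset
    obtain ⟨R, h1, h2, h3, rfl⟩ := (hB B hBb.subset_ground).1 hBb
    exact ⟨R, h1, h2, h3, hIB⟩
  have hrE : rk M M.E = r := by
    rw [rk_isBasis bQ.isBasis_ground, hcard Q hQ]
  have hnf : ∀ R : Fin (m + r) → Step, (north e R).Finite := fun R =>
    M.ground_finite.subset (north_subset e R)
  have hpre : ∀ i ≤ m + r, rk M (pre M pos (i : ℕ)) = height Q i := by
    intro i hi
    apply le_antisymm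
    · obtain ⟨I, hI⟩ := M.exists_isBasis (pre M pos (i : ℕ)) (pre_subset _)
      obtain ⟨R, h1, h2, h3, h4⟩ := hbase I hI.indep
      rw [rk_isBasis hI]
      have h5 : I ⊆ north e R ∩ pre M pos (i : ℕ) := Set.subset_inter h4 hI.subset
      have h6 := Set.ncard_le_ncard h5 ((hnf R).subset Set.inter_subset_left)
      rw [ncard_north] at h6
      exact h6.trans (h3 i hi)
    · rw [← ncard_north e Q i]
      exact ncard_le_rk (bQ.indep.subset Set.inter_subset_left) Set.inter_subset_right
  have hsuf : ∀ i ≤ m + r, rk M (suf M pos (i : ℕ)) + height P i = r := by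
    intro i hi
    have hs : ∀ R : Fin (m + r) → Step, IsPath m r R →
        height R i + (north e R ∩ suf M pos (i : ℕ)).ncard = r := by
      intro R hR
      rw [← ncard_north e R i, ncard_split (north_subset e R), hcard R hR]
    apply le_antisymm
    · obtain ⟨I, hI⟩ := M.exists_isBasis (suf M pos (i : ℕ)) (suf_subset _)
      obtain ⟨R, h1, h2, h3, h4⟩ := hbase I hI.indep
      rw [rk_isBasis hI]
      have h5 : I ⊆ north e R ∩ suf M pos (i : ℕ) := Set.subset_inter h4 hI.subset
      have h6 := Set.ncard_le_ncard h5 ((hnf R).subset Set.inter_subset_left)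
      have h7 := hs R h1
      have h8 := h2 i hi
      omega
    · have h7 := hs P hP
      have h8 : (north e P ∩ suf M pos (i : ℕ)).ncard ≤ rk M (suf M pos (i : ℕ)) :=
        ncard_le_rk (bP.indep.subset Set.inter_subset_left) Set.inter_subset_right
      omega
  -- the criterion for independence
  have hcrit : ∀ X ⊆ M.E, (∀ s t : ℕ, s ≤ t → t ≤ m + r →
      (X ∩ pre M pos (t : ℕ)).ncard + height P s ≤ height Q t + (X ∩ pre M pos (s : ℕ)).ncard) →
      M.Indep X := by
    intro X hX hcon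
    obtain ⟨RX, rfl⟩ := exists_north e hX
    have hcon' : ∀ s t : ℕ, s ≤ t → t ≤ m + r →
        height RX t + height P s ≤ height Q t + height RX s := by
      intro s t h1 h2
      have := hcon s t h1 h2
      rwa [ncard_north, ncard_north] at this
    have unit : ∀ (R : Fin (m + r) → Step), ∀ i < m + r, height R i ≤ height R (i + 1) ∧
        height R (i + 1) ≤ height R i + 1 := by
      intro R i hi
      by_cases hj : R ⟨i, hi⟩ = Step.north
      · have := height_succ_north hj
        simp only at this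
        omega
      · have := height_succ_east hj
        simp only at this
        omega
    let h : ℕ → ℕ := fun i => Nat.rec 0
      (fun i hi => max (hi + (height RX (i + 1) - height RX i)) (height P (i + 1))) i
    have h0 : h 0 = 0 := rfl
    have hsucc : ∀ i, h (i + 1) = max (h i + (height RX (i + 1) - height RX i)) (height P (i + 1)) :=
      fun i => rfl
    have hlow : ∀ i ≤ m + r, height P i ≤ h i := by
      intro i hi
      cases i with
      | zero => rw [height_zero, h0]
      | succ i => rw [hsucc]; exact le_max_right _ _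
    have hform : ∀ i ≤ m + r, ∃ s ≤ i, h i + height RX s = height P s + height RX i := by
      intro i
      induction i with
      | zero => intro _; exact ⟨0, le_rfl, by rw [h0, height_zero, height_zero]⟩
      | succ i ih =>
        intro hi
        obtain ⟨s, hs, hs'⟩ := ih (by omega)
        have h1 := unit RX i (by omega)
        rw [hsucc]
        rcases max_cases (h i + (height RX (i + 1) - height RX i)) (height P (i + 1)) with
          ⟨h2, _⟩ | ⟨h2, _⟩
        · exact ⟨s, by omega, by omega⟩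
        · exact ⟨i + 1, le_rfl, by omega⟩
    have hup : ∀ i ≤ m + r, h i ≤ height Q i := by
      intro i hi
      obtain ⟨s, hs, hs'⟩ := hform i hi
      have := hcon' s i hs hi
      omega
    have hstep : ∀ i < m + r, h i ≤ h (i + 1) ∧ h (i + 1) ≤ h i + 1 := by
      intro i hi
      have h1 := unit RX i hi
      have h2 := unit P i hi
      have h3 := hlow i (by omega)
      rw [hsucc]
      rcases max_cases (h i + (height RX (i + 1) - height RX i)) (height P (i + 1)) with
        ⟨h4, _⟩ | ⟨h4, _⟩ <;> omega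
    obtain ⟨R, hR1, hR2⟩ := path_of_fun h h0 hstep
    have hRp : IsPath m r R := by
      unfold IsPath
      rw [hR1 _ le_rfl]
      have h1 := hlow (m + r) le_rfl
      have h2 := hup (m + r) le_rfl
      unfold IsPath at hP hQ
      omega
    have hRb := hB' R hRp (fun i hi => by rw [hR1 i hi]; exact hlow i hi)
      (fun i hi => by rw [hR1 i hi]; exact hup i hi)
    apply hRb.indep.subset
    rintro x ⟨j, hj, rfl⟩
    rw [e_mem_north, hR2]
    have h1 := height_succ_north hj
    have h2 := hstep j j.2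
    have h3 := hsucc j
    have h4 := le_max_left (h j + (height RX (j + 1) - height RX j)) (height P (j + 1))
    omega
  refine ⟨pos, north e Q, north e P, ⟨?_, ?_⟩, ⟨bQ.indep, ?_⟩, ⟨bP.indep, ?_⟩⟩
  · intro x hx y hy hxy
    obtain ⟨i, rfl⟩ := exists_index e hx
    obtain ⟨j, rfl⟩ := exists_index e hy
    rw [hpos, posOf_e, posOf_e] at hxy
    have : i = j := Fin.ext (by exact_mod_cast hxy)
    rw [this]
  · intro C hC a ha b hb hab
    obtain ⟨i, rfl⟩ := exists_index e (hC.subset_ground ha)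
    obtain ⟨j, rfl⟩ := exists_index e (hC.subset_ground hb)
    have hCf : C.Finite := M.ground_finite.subset hC.subset_ground
    -- a violated inequality
    have hviol : ∃ s t : ℕ, s ≤ t ∧ t ≤ m + r ∧ height Q t + (C ∩ pre M pos (s : ℕ)).ncard <
        (C ∩ pre M pos (t : ℕ)).ncard + height P s := by
      by_contra hcon
      push Not at hcon
      exact hC.not_indep (hcrit C hC.subset_ground (fun s t h1 h2 => hcon s t h1 h2))
    obtain ⟨s, t, hst, ht, hlt⟩ := hviol
    have hCsub : C ⊆ pre M pos (t : ℕ) ∩ suf M pos (s : ℕ) := by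
      by_contra hcon
      have hI : M.Indep (C ∩ (pre M pos (t : ℕ) ∩ suf M pos (s : ℕ))) := by
        apply hC.ssubset_indep
        refine ⟨Set.inter_subset_left, fun hh => hcon (fun x hx => (hh hx).2)⟩
      obtain ⟨R, h1, h2, h3, h4⟩ := hbase _ hI
      have n1 : (C ∩ pre M pos (t : ℕ)).ncard ≤ (C ∩ pre M pos (s : ℕ)).ncard +
          (C ∩ (pre M pos (t : ℕ) ∩ suf M pos (s : ℕ))).ncard := by
        refine (Set.ncard_le_ncard (t := (C ∩ pre M pos (s : ℕ)) ∪
          (C ∩ (pre M pos (t : ℕ) ∩ suf M pos (s : ℕ)))) ?_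
          ((hCf.subset Set.inter_subset_left).union (hCf.subset Set.inter_subset_left))).trans
          (Set.ncard_union_le _ _)
        rintro x ⟨hx, hxt⟩
        by_cases hxs : pos x < (s : ℕ)
        · exact Or.inl ⟨hx, hxt.1, hxs⟩
        · exact Or.inr ⟨hx, hxt, hxt.1, by omega⟩
      have n2 : (C ∩ (pre M pos (t : ℕ) ∩ suf M pos (s : ℕ))).ncard +
          (north e R ∩ pre M pos (s : ℕ)).ncard ≤ (north e R ∩ pre M pos (t : ℕ)).ncard := by
        rw [← Set.ncard_union_eq _ (hCf.subset Set.inter_subset_left)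
          ((hnf R).subset Set.inter_subset_left)]
        · apply Set.ncard_le_ncard _ ((hnf R).subset Set.inter_subset_left)
          rintro x (hx | hx)
          · exact ⟨h4 hx, hx.2.1⟩
          · exact ⟨hx.1, pre_mono (by exact_mod_cast hst) hx.2⟩
        · rw [Set.disjoint_left]
          rintro x ⟨_, _, g1⟩ ⟨_, g2⟩
          have := g1.2
          have := g2.2
          omega
      rw [ncard_north, ncard_north] at n2
      have n3 := h3 t ht
      have n4 := h2 s (by omega)
      omega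
    have c1 : C ∩ pre M pos (t : ℕ) = C :=
      Set.inter_eq_self_of_subset_left (fun x hx => (hCsub hx).1)
    have c2 : C ∩ pre M pos (s : ℕ) = ∅ := by
      rw [← Set.disjoint_iff_inter_eq_empty, Set.disjoint_left]
      intro x hx hx'
      have := (hCsub hx).2.2
      have := hx'.2
      omega
    rw [c1, c2, Set.ncard_empty] at hlt
    have hjt := (mem_pre e j t).1 (hCsub hb).1
    have his := (mem_suf e i s).1 (hCsub ha).2
    have m1 : rk M (pre M pos (pos (e j) + 1)) ≤ rk M (pre M pos (t : ℕ)) := by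
      apply rk_mono
      apply pre_mono
      rw [hpos, posOf_e]
      omega
    have m2 : rk M (suf M pos (pos (e i))) ≤ rk M (suf M pos (s : ℕ)) := by
      apply rk_mono
      apply suf_anti
      rw [hpos, posOf_e]
      omega
    rw [hpre t ht] at m1
    have m3 := hsuf s (by omega)
    have m4 := rk_circuit hC
    omega
  · intro t
    obtain ⟨i, hi, h1, _⟩ := pre_clamp e t
    rw [h1, ncard_north, hpre i hi]
  · intro t
    have e1 : pre M (fun x => - pos x) t = suf M pos (1 - t) := pre_neg t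
    obtain ⟨i, hi, _, h1⟩ := pre_clamp e (1 - t)
    rw [e1, h1]
    have h2 := ncard_split (north_subset e P) pos (i : ℕ)
    rw [hpos, ncard_north, hcard P hP] at h2
    have h3 := hsuf i hi
    rw [hpos] at h3
    omega

/-! ### From the key function to lattice path matroids -/

theorem lattice_of_key {α : Type u} {M : Matroid α} [M.Finite] (h : ∃ key : α → ℕ, ∀ B ⊆ M.E,
    B.ncard = rk M M.E →
    (∀ D ⊆ M.E, (∀ x ∈ D, ∀ y ∈ M.E, y ∉ D → key x < key y) → (B ∩ D).ncard ≤ rk M D) →
    (∀ U ⊆ M.E, (∀ x ∈ U, ∀ y ∈ M.E, y ∉ U → key y < key x) → (B ∩ U).ncard ≤ rk M U) →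
    M.Indep B) : IsLatticePathMatroid M := by
  classical
  obtain ⟨key, hkey⟩ := h
  have hfE : Finite M.E := M.ground_finite.to_subtype
  obtain ⟨m, hm⟩ : ∃ m, Nat.card M.E = m + rk M M.E := by
    have h1 := rk_le_ncard M M.ground_finite
    have h2 : Nat.card M.E = M.E.ncard := Nat.card_coe_set_eq M.E
    exact ⟨M.E.ncard - rk M M.E, by omega⟩
  set r := rk M M.E with hr
  let e0 : Fin (m + r) ≃ M.E := (finCongr hm.symm).trans (Finite.equivFin M.E).symm
  let σ := Tuple.sort (fun j => key (e0 j))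
  let e : Fin (m + r) ≃ M.E := σ.trans e0
  have hmono : ∀ i j : Fin (m + r), i ≤ j → key (e i) ≤ key (e j) := by
    intro i j hij
    exact Tuple.monotone_sort (fun j => key (e0 j)) hij
  set pos := posOf e with hpos
  have hunit : ∀ j : Fin (m + r), rk M (pre M pos (((j : ℕ) + 1 : ℕ) : ℤ)) ≤
      rk M (pre M pos ((j : ℕ) : ℤ)) + 1 := by
    intro j
    rw [hpos, pre_succ]
    exact (rk_rankFn M).unit _ _
  have hunit2 : ∀ j : Fin (m + r), rk M (suf M pos ((j : ℕ) : ℤ)) ≤
      rk M (suf M pos (((j : ℕ) + 1 : ℕ) : ℤ)) + 1 := by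
    intro j
    rw [hpos, suf_succ]
    exact (rk_rankFn M).unit _ _
  have hsufle : ∀ t : ℤ, rk M (suf M pos t) ≤ r := fun t => rk_mono (suf_subset t)
  have hzero : rk M (∅ : Set α) = 0 := by
    have := rk_le_ncard M (Set.finite_empty (α := α))
    rw [Set.ncard_empty] at this
    omega
  obtain ⟨Q, hQ1, _⟩ := path_of_fun (k := m + r) (fun i => rk M (pre M pos (i : ℕ)))
    (by show rk M (pre M pos ((0 : ℕ) : ℤ)) = 0; rw [hpos, pre_zero, hzero])
    (fun i hi => ⟨rk_mono (pre_mono (by push_cast; omega)), hunit ⟨i, hi⟩⟩)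
  obtain ⟨P, hP1, _⟩ := path_of_fun (k := m + r) (fun i => r - rk M (suf M pos (i : ℕ)))
    (by show r - rk M (suf M pos ((0 : ℕ) : ℤ)) = 0; rw [hpos, suf_zero]; omega)
    (fun i hi => by
      have h1 := hunit2 ⟨i, hi⟩
      have h2 := rk_mono (M := M) (suf_anti (M := M) (pos := pos) (s := ((i : ℕ) : ℤ))
        (t := ((i + 1 : ℕ) : ℤ)) (by push_cast; omega))
      have h3 := hsufle ((i : ℕ) : ℤ)
      simp only at h1
      constructor <;> omega)
  have hPp : IsPath m r P := by
    unfold IsPath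
    rw [hP1 _ le_rfl]
    rw [hpos, suf_all, hzero]
    omega
  have hQp : IsPath m r Q := by
    unfold IsPath
    rw [hQ1 _ le_rfl, hpos, pre_all]
  refine ⟨m, r, P, Q, e, hPp, hQp, ?_, ?_⟩
  · intro i hi
    rw [hP1 i hi, hQ1 i hi]
    have h1 : rk M M.E ≤ rk M (pre M pos (i : ℕ) ∪ suf M pos (i : ℕ)) := by
      apply rk_mono
      intro x hx
      by_cases h : pos x < (i : ℕ)
      · exact Or.inl ⟨hx, h⟩
      · exact Or.inr ⟨hx, by omega⟩
    have h2 := rk_union_le (M := M) (pre M pos (i : ℕ)) (suf M pos (i : ℕ))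
    omega
  · intro B hBE
    constructor
    · intro hB
      obtain ⟨R, rfl⟩ := exists_north e hBE
      have hBr : (north e R).ncard = r := (rk_isBasis hB.isBasis_ground).symm
      refine ⟨R, ?_, ?_, ?_, rfl⟩
      · have h1 := ncard_north e R (m + r)
        rw [pre_all e, Set.inter_eq_self_of_subset_left (north_subset e R)] at h1
        unfold IsPath
        rw [← h1, hBr]
      · intro i hi
        rw [hP1 i hi]
        have h1 := ncard_split (north_subset e R) pos (i : ℕ)
        rw [hpos, ncard_north, hBr] at h1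
        have h2 : (north e R ∩ suf M (posOf e) (i : ℕ)).ncard ≤ rk M (suf M pos (i : ℕ)) :=
          ncard_le_rk (hB.indep.subset Set.inter_subset_left) Set.inter_subset_right
        omega
      · intro i hi
        rw [hQ1 i hi, ← ncard_north e R i]
        exact ncard_le_rk (hB.indep.subset Set.inter_subset_left) Set.inter_subset_right
    · rintro ⟨R, hR, hPR, hRQ, hBR⟩
      have hBR' : B = north e R := hBR
      subst hBR'
      have hBr : (north e R).ncard = r := by
        have h1 := ncard_north e R (m + r)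
        rw [pre_all e, Set.inter_eq_self_of_subset_left (north_subset e R)] at h1
        rw [h1]; exact hR
      -- initial segments
      have hprefix : ∀ D ⊆ M.E, (∀ x ∈ D, ∀ y ∈ M.E, y ∉ D → key x < key y) →
          ∃ i : ℕ, i ≤ m + r ∧ D = pre M pos (i : ℕ) := by
        intro D hD hDk
        have hex : ∃ i : ℕ, i = m + r ∨ ∃ hi : i < m + r, (e ⟨i, hi⟩ : α) ∉ D := ⟨m + r, Or.inl rfl⟩
        set i := Nat.find hex with hi
        have hile : i ≤ m + r := Nat.find_min' hex (Or.inl rfl)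
        refine ⟨i, hile, ?_⟩
        ext x
        constructor
        · intro hx
          obtain ⟨j, rfl⟩ := exists_index e (hD hx)
          rw [hpos, mem_pre]
          by_contra hcon
          rcases Nat.find_spec hex with h1 | ⟨h1, h2⟩
          · rw [← hi] at h1
            have := j.2
            omega
          · have h3 := hDk _ hx _ (e ⟨i, h1⟩).2 h2
            have h4 := hmono ⟨i, h1⟩ j (by
              rw [Fin.le_def]
              simp only
              omega)
            omega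
        · intro hx
          obtain ⟨j, rfl⟩ := exists_index e hx.1
          rw [hpos, mem_pre] at hx
          by_contra hcon
          exact Nat.find_min hex hx (Or.inr ⟨j.2, hcon⟩)
      have hind : M.Indep (north e R) := by
        apply hkey _ (north_subset e R) hBr
        · intro D hD hDk
          obtain ⟨i, hi, rfl⟩ := hprefix D hD hDk
          rw [hpos, ncard_north]
          have := hRQ i hi
          rw [hQ1 i hi] at this
          exact this
        · intro U hU hUk
          obtain ⟨i, hi, h1⟩ := hprefix (M.E \ U) Set.sdiff_subset (by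
            rintro x ⟨hx, hxU⟩ y hy hyD
            have hyU : y ∈ U := by
              by_contra h
              exact hyD ⟨hy, h⟩
            exact hUk y hyU x hx hxU)
          have h2 : U = suf M pos (i : ℕ) := by
            ext x
            constructor
            · intro hx
              refine ⟨hU hx, ?_⟩
              by_contra hcon
              have : x ∈ M.E \ U := by
                rw [h1]
                exact ⟨hU hx, by omega⟩
              exact this.2 hx
            · rintro ⟨hx, hx'⟩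
              by_contra hcon
              have : x ∈ M.E \ U := ⟨hx, hcon⟩
              rw [h1] at this
              have := this.2
              omega
          rw [h2]
          have h3 := ncard_split (north_subset e R) pos (i : ℕ)
          rw [hpos, ncard_north, hBr] at h3
          have h4 := hPR i hi
          rw [hP1 i hi] at h4
          have h5 := hsufle ((i : ℕ) : ℤ)
          rw [hpos] at h4 h5 ⊢
          omega
      have hbasis : M.IsBasis (north e R) M.E :=
        isBasis_of_ncard hind (north_subset e R) (Set.Subset.refl _) (by rw [hBr])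
      exact Matroid.isBasis_ground_iff.1 hbasis

/-- There is a sentence of `MS₀` satisfied by exactly those finite matroids that are lattice path
matroids. -/
theorem result : ∃ φ : Sentence, ∀ (α : Type u) (M : Matroid α), M.Finite →
    (Models M φ ↔ IsLatticePathMatroid M) := by
  refine ⟨sentence, fun α M hM => ?_⟩
  rw [models_sentence]
  constructor
  · intro h
    exact lattice_of_key (key_of_phi h)
  · intro h
    obtain ⟨_, pos, B₁, B₂, h1, h2, h3⟩ := ord_of_lattice h
    exact phi_of_ord h1 h2 h3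

end Pool.Agent.Results.MP_b5ca43_co.MonadicSentence
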